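import Pool.Agent.W93.CU2

/-!
# The median inequality for the sum-of-digits measures `P_t`

`P 1 = δ_0`, `P (2 n) = P n` and `P (2 n + 1) (d) = (1/2) P n (d - 1) + (1/2) P (n + 1) (d + 1)`.
For every `t ≥ 1` zero is a median of the probability measure `P t`: both `P t (ℕ) ≥ 1/2` and
`P t (-ℕ) ≥ 1/2`.
-/

set_option autoImplicit false

namespace Pool.Agent.Results.MP_23af5d_nt.MedianInequality

open W93.CU

/-- A concrete family with the recursion of the problem (used in the proof only): the weights of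
the measures `P_t` for `t ≥ 1`, `P_1 = δ_0`, `P_{2n} = P_n`,
`P_{2n+1}(d) = P_n(d-1)/2 + P_{n+1}(d+1)/2`. -/
noncomputable def P (t : ℕ) (d : ℤ) : ℝ :=
  if t ≤ 1 then (if d = 0 then 1 else 0)
  else if t % 2 = 0 then P (t / 2) d
  else P (t / 2) (d - 1) / 2 + P (t / 2 + 1) (d + 1) / 2
termination_by t
decreasing_by all_goals omega

lemma P_one (d : ℤ) : P 1 d = if d = 0 then 1 else 0 := by
  rw [P]; simp

lemma P_even (n : ℕ) (hn : 1 ≤ n) (d : ℤ) : P (2 * n) d = P n d := by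
  rw [P, if_neg (by omega), if_pos (by omega), show 2 * n / 2 = n by omega]

lemma P_odd (n : ℕ) (hn : 1 ≤ n) (d : ℤ) :
    P (2 * n + 1) d = P n (d - 1) / 2 + P (n + 1) (d + 1) / 2 := by
  rw [P, if_neg (by omega), if_neg (by omega), show (2 * n + 1) / 2 = n by omega]

/-- induction along the recursion -/
lemma rec_ind {p : ℕ → Prop} (h1 : p 1) (he : ∀ n, 1 ≤ n → p n → p (2 * n))
    (ho : ∀ n, 1 ≤ n → p n → p (n + 1) → p (2 * n + 1)) : ∀ t, 1 ≤ t → p t := by
  intro t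
  induction t using Nat.strong_induction_on with
  | _ t ih =>
    intro ht
    rcases Nat.lt_or_ge 1 t with h | h
    · rcases Nat.even_or_odd' t with ⟨n, rfl | rfl⟩
      · exact he n (by omega) (ih n (by omega) (by omega))
      · exact ho n (by omega) (ih n (by omega) (by omega)) (ih (n + 1) (by omega) (by omega))
    · obtain rfl : t = 1 := by omega
      exact h1

lemma P_nonneg (t : ℕ) (ht : 1 ≤ t) : ∀ d, 0 ≤ P t d := by
  refine rec_ind (p := fun t => ∀ d, 0 ≤ P t d) ?_ ?_ ?_ t ht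
  · intro d; rw [P_one]; split_ifs <;> norm_num
  · intro n hn h d; rw [P_even n hn]; exact h d
  · intro n hn h h' d
    rw [P_odd n hn]
    have := h (d - 1)
    have := h' (d + 1)
    linarith

lemma P_hasSum (t : ℕ) (ht : 1 ≤ t) : HasSum (P t) 1 := by
  refine rec_ind (p := fun t => HasSum (P t) 1) ?_ ?_ ?_ t ht
  · have : P 1 = fun d => if d = 0 then 1 else 0 := funext P_one
    rw [this]
    exact hasSum_ite_eq 0 1
  · intro n hn h
    have : P (2 * n) = P n := funext (P_even n hn)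
    rwa [this]
  · intro n hn h h'
    have e : P (2 * n + 1) = fun d => P n (d - 1) / 2 + P (n + 1) (d + 1) / 2 :=
      funext (P_odd n hn)
    rw [e]
    have a := (((Equiv.subRight (1 : ℤ)).hasSum_iff (f := P n) (a := (1 : ℝ))).mpr h).div_const 2
    have b := (((Equiv.addRight (1 : ℤ)).hasSum_iff (f := P (n + 1)) (a := (1 : ℝ))).mpr
      h').div_const 2
    have c := a.add b
    norm_num at c
    exact c

lemma summ (t : ℕ) (ht : 1 ≤ t) (k : ℤ) : Summable fun d : ℕ => P t (k + d) :=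
  (P_hasSum t ht).summable.comp_injective
    (i := fun d : ℕ => k + (d : ℤ)) (fun a b h => by simpa using h)

/-- tails -/
noncomputable def T (t : ℕ) (k : ℤ) : ℝ := ∑' d : ℕ, P t (k + d)

lemma T_even (n : ℕ) (hn : 1 ≤ n) : T (2 * n) = T n := by
  funext k
  unfold T
  simp only [P_even n hn]

lemma T_odd (n : ℕ) (hn : 1 ≤ n) :
    T (2 * n + 1) = fun k => T n (k - 1) / 2 + T (n + 1) (k + 1) / 2 := by
  funext k
  unfold T
  have a := (summ n hn (k - 1)).div_const 2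
  have b := (summ (n + 1) (by omega) (k + 1)).div_const 2
  rw [← tsum_div_const, ← tsum_div_const, ← a.tsum_add b]
  refine tsum_congr fun d => ?_
  rw [P_odd n hn, show k + (d : ℤ) - 1 = k - 1 + d by ring,
    show k + (d : ℤ) + 1 = k + 1 + d by ring]

lemma T_one : T 1 = one0 := by
  funext k
  unfold T one0
  by_cases hk : k ≤ 0
  · rw [if_pos hk, tsum_eq_single (-k).toNat]
    · rw [P_one, if_pos (by omega)]
    · intro d hd
      rw [P_one, if_neg (by omega)]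
  · rw [if_neg hk]
    have : ∀ d : ℕ, P 1 (k + d) = 0 := by
      intro d
      rw [P_one, if_neg (by omega)]
    simp only [this, tsum_zero]

/-- the tails are those attached to words in the helper files -/
lemma T_word (t : ℕ) (ht : 1 ≤ t) : ∃ w : List Bool, T t = (tl one0 one0 w).1 ∧
    T (t + 1) = (tl one0 one0 w).2 := by
  induction t using Nat.strong_induction_on with
  | _ t ih =>
    rcases Nat.lt_or_ge 1 t with h | h
    · rcases Nat.even_or_odd' t with ⟨n, rfl | rfl⟩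
      · obtain ⟨w, h1, h2⟩ := ih n (by omega) (by omega)
        refine ⟨false :: w, ?_, ?_⟩
        · rw [T_even n (by omega), h1]; rfl
        · rw [T_odd n (by omega), h1, h2]; rfl
      · obtain ⟨w, h1, h2⟩ := ih n (by omega) (by omega)
        refine ⟨true :: w, ?_, ?_⟩
        · rw [T_odd n (by omega), h1, h2]; rfl
        · rw [show 2 * n + 1 + 1 = 2 * (n + 1) by ring, T_even (n + 1) (by omega), h2]; rfl
    · obtain rfl : t = 1 := by omega
      refine ⟨[], T_one, ?_⟩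
      rw [show 1 + 1 = 2 * 1 by norm_num, T_even 1 le_rfl, T_one]; rfl

lemma T_bounds (t : ℕ) (ht : 1 ≤ t) : 1 / 2 ≤ T t 0 ∧ T t 1 ≤ 1 / 2 := by
  refine rec_ind (p := fun t => 1 / 2 ≤ T t 0 ∧ T t 1 ≤ 1 / 2) ?_ ?_ ?_ t ht
  · rw [T_one]
    unfold one0
    norm_num
  · intro n hn h
    rw [T_even n hn]
    exact h
  · intro n hn _ _
    obtain ⟨w, h1, h2⟩ := T_word n hn
    have e : T (2 * n + 1) = (tl one0 one0 (true :: w)).1 := by
      rw [T_odd n hn, h1, h2]; rfl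
    rw [e]
    exact ⟨median_odd w, median_odd_le w⟩

lemma neg_tail (t : ℕ) (ht : 1 ≤ t) : ∑' d : ℕ, P t (-(d : ℤ)) = 1 - T t 1 := by
  have h := ((Equiv.neg ℤ).hasSum_iff (f := P t) (a := (1 : ℝ))).mpr (P_hasSum t ht)
  have h0 : Summable fun n : ℕ => (P t ∘ (Equiv.neg ℤ)) (n : ℤ) :=
    h.summable.comp_injective Nat.cast_injective
  have h1 : HasSum (fun n : ℕ => (P t ∘ (Equiv.neg ℤ)) (-((n : ℤ) + 1))) (T t 1) := by
    have e : (fun n : ℕ => (P t ∘ (Equiv.neg ℤ)) (-((n : ℤ) + 1))) =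
        fun d : ℕ => P t (1 + (d : ℤ)) := by
      funext n
      simp only [Function.comp_apply, Equiv.neg_apply, neg_neg]
      rw [add_comm]
    rw [e]
    exact (summ t ht 1).hasSum
  have h2 := h0.hasSum.of_nat_of_neg_add_one h1
  have h3 := h2.unique h
  have h4 : ∑' d : ℕ, P t (-(d : ℤ)) = ∑' n : ℕ, (P t ∘ (Equiv.neg ℤ)) (n : ℤ) := rfl
  rw [h4]
  linarith

lemma unique (Q : ℕ → ℤ → ℝ) (h1 : ∀ d : ℤ, Q 1 d = if d = 0 then 1 else 0)
    (h2 : ∀ n : ℕ, 1 ≤ n → ∀ d : ℤ, Q (2 * n) d = Q n d)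
    (h3 : ∀ n : ℕ, 1 ≤ n → ∀ d : ℤ,
      Q (2 * n + 1) d = 1 / 2 * Q n (d - 1) + 1 / 2 * Q (n + 1) (d + 1)) (t : ℕ) (ht : 1 ≤ t) :
    Q t = P t := by
  refine rec_ind (p := fun t => Q t = P t) ?_ ?_ ?_ t ht
  · funext d; rw [h1, P_one]
  · intro n hn h; funext d; rw [h2 n hn, P_even n hn, h]
  · intro n hn h h'; funext d; rw [h3 n hn, P_odd n hn, h, h']; ring

/-- **Median inequality.** There is a family `P_t` of functions on the integers, `t ≥ 1`, with
`P_1 = δ_0`, `P_{2n} = P_n`, `P_{2n+1}(d) = (1/2) P_n(d-1) + (1/2) P_{n+1}(d+1)`, and for every such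
family and every `t ≥ 1` the weights `P_t(d)` are nonnegative with sum `1`, and `P_t(ℕ) ≥ 1/2` as
well as `P_t(-ℕ) ≥ 1/2`. -/
theorem result :
    (∃ P : ℕ → ℤ → ℝ, (∀ d : ℤ, P 1 d = if d = 0 then 1 else 0) ∧
      (∀ n : ℕ, 1 ≤ n → ∀ d : ℤ, P (2 * n) d = P n d) ∧
      (∀ n : ℕ, 1 ≤ n → ∀ d : ℤ,
        P (2 * n + 1) d = 1 / 2 * P n (d - 1) + 1 / 2 * P (n + 1) (d + 1))) ∧
    ∀ P : ℕ → ℤ → ℝ, (∀ d : ℤ, P 1 d = if d = 0 then 1 else 0) →
      (∀ n : ℕ, 1 ≤ n → ∀ d : ℤ, P (2 * n) d = P n d) →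
      (∀ n : ℕ, 1 ≤ n → ∀ d : ℤ,
        P (2 * n + 1) d = 1 / 2 * P n (d - 1) + 1 / 2 * P (n + 1) (d + 1)) →
      ∀ t : ℕ, 1 ≤ t → (∀ d : ℤ, 0 ≤ P t d) ∧ HasSum (P t) 1 ∧
        1 / 2 ≤ ∑' d : ℕ, P t d ∧ 1 / 2 ≤ ∑' d : ℕ, P t (-d) := by
  refine ⟨⟨P, P_one, P_even, fun n hn d => by rw [P_odd n hn]; ring⟩, ?_⟩
  intro Q h1 h2 h3 t ht
  rw [unique Q h1 h2 h3 t ht]
  refine ⟨P_nonneg t ht, P_hasSum t ht, ?_, ?_⟩
  · have := (T_bounds t ht).1
    unfold T at this
    simpa using this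
  · rw [neg_tail t ht]
    have := (T_bounds t ht).2
    linarith

end Pool.Agent.Results.MP_23af5d_nt.MedianInequality
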